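import Pool.Agent.P.MP_593b7e_an.St.Split

set_option autoImplicit false

open MeasureTheory Filter Topology Set

namespace Pool.Agent.P.MP_593b7e_an

variable {N : ℕ} {p μ ν lam : ℝ}

/-- Points of the Nehari set with a small first component lie above the level at infinity. -/
lemma Hyp.barrier (H : Hyp N p μ ν) {lam1 : ℝ} (h1 : lam1 < √(μ * ν)) :
    ∃ δ, 0 < δ ∧ ∀ lam, 0 ≤ lam → lam ≤ lam1 → ∀ u v : H1 N, 0 < Pp (p + 1) u →
      Jf p μ ν lam u v = 0 → Pp (p + 1) u < δ →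
      sInf (critSet N) + (1 / 2 - 1 / (p + 1)) * Pp (p + 1) u ≤ Phi p u v := by
  obtain ⟨c, hc, hco⟩ := coercive (N := N) H.hμ H.hν h1
  obtain ⟨K, hK, hP⟩ := H.Pp_le
  have hq := H.q2
  have hs := H.s2
  set c' := min c 1 / 2 with hc'
  have hc0 : 0 < c' := half_pos (lt_min hc one_pos)
  have hc1 : 2 * c' ≤ c := by rw [hc']; linarith [min_le_left c 1]
  have hc2 : 2 * c' ≤ 1 := by rw [hc']; linarith [min_le_right c 1]
  refine ⟨c' * (c' / K) ^ ((p + 1) / 2 - 1)⁻¹, by positivity,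
    fun lam h0 hl u v hA0 hJ hδ => ?_⟩
  have hDu := Dd_nonneg u
  have hLu := H.Ll_pos hq.le H.qs.le hA0
  have hLv := Ll_nonneg v
  have hn : 0 < Dd u u + Ll u u := by linarith
  rcases le_or_gt (Pp (p + 1) u) (c' * (Dd u u + Ll u u)) with hA | hA
  · have e1 := hco lam h0 hl u v
    unfold Jf at hJ
    have e2 : Dd v v + c * Ll v v + c' * (Dd u u + Ll u u) ≤ Pp (crit N) v := by
      nlinarith [mul_le_mul_of_nonneg_right hc1 hLu.le, mul_le_mul_of_nonneg_right hc2 hDu]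
    have hDv := Dd_nonneg v
    have e3 := mul_nonneg hc.le hLv
    have e4 := mul_pos hc0 hn
    obtain ⟨b, _, hb⟩ := critSet_bdd H.hN
    have e5 : sInf (critSet N) ≤ (1 / 2 - 1 / crit N) * Pp (crit N) v :=
      csInf_le ⟨b, hb⟩ ⟨v, by linarith, by linarith, rfl⟩
    unfold Phi
    linarith
  · refine absurd (hδ.trans_le' (le_trans ?_ hA.le)) (lt_irrefl _)
    gcongr
    exact lower_of_rpow hc0 hK hn (by linarith) (hA.le.trans (hP u hn))

lemma Hyp.Phi_smul_le (H : Hyp N p μ ν) {t : ℝ} (h0 : 0 < t) (h1 : t ≤ 1) (u v : H1 N) :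
    Phi p (u.smul t) (v.smul t) ≤ t ^ (p + 1) * Phi p u v := by
  rw [Phi_smul h0]
  unfold Phi
  have e := Real.rpow_le_rpow_of_exponent_ge h0 h1 H.qs.le
  nlinarith [mul_le_mul_of_nonneg_right e (mul_nonneg H.b_pos.le (Pp_nonneg (crit N) v))]

/-- The values of the energy on the part of the Nehari set behind the barrier. -/
def locSet (N : ℕ) (p μ ν lam θ : ℝ) : Set ℝ :=
  {x | ∃ u v : H1 N, Jf p μ ν lam u v = 0 ∧ θ ≤ Pp (p + 1) u ∧ x = Phi p u v}

lemma Hyp.loc_bdd (H : Hyp N p μ ν) (θ : ℝ) : BddBelow (locSet N p μ ν lam θ) :=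
  ⟨0, by rintro _ ⟨u, v, -, -, rfl⟩; exact H.Phi_nonneg u v⟩

lemma Hyp.loc_le (H : Hyp N p μ ν) {c θ η : ℝ} (hc : 0 < c) (hθ : 0 < θ) (hη : 0 < η)
    (hm : c ≤ level N p μ ν lam) (hcη : η * (c / (1 / 2 - 1 / (p + 1)) + θ) ≤ c * θ)
    {u v : H1 N} (hA : 2 * θ - η / (1 / 2 - 1 / (p + 1)) ≤ Pp (p + 1) u) (hΦ : Phi p u v ≤ c + η)
    {σ : ℝ} (hσ : 0 < σ) (hnz : 0 < Pp (p + 1) (u.smul σ) + Pp (crit N) (v.smul σ))
    (hJ : Jf p μ ν lam (u.smul σ) (v.smul σ) = 0) : θ ≤ Pp (p + 1) (u.smul σ) := by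
  have ha := H.a_pos
  have hq := H.q2
  set a := 1 / 2 - 1 / (p + 1)
  have e0 : η * (c / a) = c * (η / a) := by ring
  have e1 : η / a ≤ θ := by
    refine le_of_mul_le_mul_left ?_ hc
    nlinarith [mul_pos hη hθ]
  rw [Pp_smul, abs_of_pos hσ]
  rcases le_total 1 σ with h | h
  · have := Real.one_le_rpow h (by linarith : 0 ≤ p + 1)
    nlinarith
  · have e2 := (hm.trans (H.level_le hnz hJ)).trans (H.Phi_smul_le hσ h u v)
    have e3 : 0 < σ ^ (p + 1) := by positivity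
    have e4 : c ≤ σ ^ (p + 1) * (c + η) := e2.trans (mul_le_mul_of_nonneg_left hΦ e3.le)
    refine le_of_mul_le_mul_left ?_ (by linarith : 0 < c + η)
    have e5 := mul_le_mul e4 hA (by linarith) (by positivity)
    nlinarith

/-- The local minimum behind the barrier is attained at a critical point. -/
lemma Hyp.exists_local (H : Hyp N p μ ν) (h0 : 0 ≤ lam) (h1 : lam < √(μ * ν)) {c θ η : ℝ}
    (hc : 0 < c) (hθ : 0 < θ) (hη : 0 < η) (hm : c ≤ level N p μ ν lam)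
    (hcη : η * (c / (1 / 2 - 1 / (p + 1)) + θ) ≤ c * θ)
    (hbar : ∀ u v : H1 N, 0 < Pp (p + 1) u → Jf p μ ν lam u v = 0 → Pp (p + 1) u < 2 * θ →
      c + (1 / 2 - 1 / (p + 1)) * Pp (p + 1) u ≤ Phi p u v)
    {x₀ : ℝ} (hx₀ : x₀ ∈ locSet N p μ ν lam θ) (hlt : x₀ < c + η) :
    ∃ U V : H1 N, (U, V) ∈ nehari N p μ ν lam ∧
      (∀ φ ψ : H1 N, energyDeriv p μ ν lam U V φ ψ = 0) ∧ energy p μ ν lam U V < c + η := by
  have ha := H.a_pos
  have hb := H.b_pos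
  have hq := H.q2
  have hbdd := H.loc_bdd (lam := lam) θ
  have key : ∀ u v : H1 N, 2 * θ - η / (1 / 2 - 1 / (p + 1)) ≤ Pp (p + 1) u →
      Phi p u v ≤ c + η → ∀ σ, 0 < σ → 0 < Pp (p + 1) (u.smul σ) + Pp (crit N) (v.smul σ) →
      Jf p μ ν lam (u.smul σ) (v.smul σ) = 0 →
      sInf (locSet N p μ ν lam θ) ≤ Phi p (u.smul σ) (v.smul σ) :=
    fun u v k1 k2 σ k3 k4 k5 =>
      csInf_le hbdd ⟨_, _, k5, H.loc_le hc hθ hη hm hcη k1 k2 k3 k4 k5, rfl⟩
  have hm' : sInf (locSet N p μ ν lam θ) < c + η := (csInf_le hbdd hx₀).trans_lt hlt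
  obtain ⟨x, -, hx, hxm⟩ := exists_seq_tendsto_sInf ⟨x₀, hx₀⟩ hbdd
  set m := sInf (locSet N p μ ν lam θ) with hmdef
  set a := 1 / 2 - 1 / (p + 1) with hadef
  have e0 : η * (c / a) = c * (η / a) := by ring
  have e1 : η / a < θ := by
    refine lt_of_mul_lt_mul_left ?_ hc.le
    nlinarith [mul_pos hη hθ]
  have big : ∀ u v : H1 N, Jf p μ ν lam u v = 0 → θ ≤ Pp (p + 1) u → Phi p u v ≤ c + η →
      2 * θ ≤ Pp (p + 1) u := fun u v k1 k2 k3 => by
    by_contra k4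
    have k5 := hbar u v (hθ.trans_le k2) k1 (not_le.1 k4)
    rw [div_lt_iff₀ ha] at e1
    nlinarith [mul_le_mul_of_nonneg_left k2 ha.le]
  obtain ⟨n0, hn0⟩ := eventually_atTop.1 (hx.eventually_lt_const hm')
  choose u v hJ hA hxe using hxm
  have hΦ : ∀ n, Phi p (u (n + n0)) (v (n + n0)) ≤ c + η := fun n => by
    rw [← hxe]
    exact (hn0 _ (Nat.le_add_left _ _)).le
  have hA2 : ∀ n, 2 * θ ≤ Pp (p + 1) (u (n + n0)) := fun n => big _ _ (hJ _) (hA _) (hΦ n)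
  obtain ⟨φ, U, V, r, s, hφ, hU, sA, sΦ, sJ⟩ := H.split h0 h1 (fun n => u (n + n0))
    (fun n => v (n + n0)) (fun n => hJ _) hΦ (by linarith : 0 < 2 * θ) hA2
  have hxφ : Tendsto (fun n => Phi p (u (φ n + n0)) (v (φ n + n0))) atTop (𝓝 m) := by
    simp only [← hxe]
    exact hx.comp ((tendsto_add_atTop_nat n0).comp hφ)
  have hrem : Tendsto (fun n => Phi p (r n) (s n)) atTop (𝓝 (m - Phi p U V)) :=
    (hxφ.sub sΦ).congr fun n => by ring
  have hnz : 0 < Pp (p + 1) U + Pp (crit N) V := by linarith [Pp_nonneg (crit N) V]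
  have hΦA : ∀ u v : H1 N, a * Pp (p + 1) u ≤ Phi p u v := fun u v =>
    le_add_of_nonneg_right (mul_nonneg hb.le (Pp_nonneg _ _))
  have hΦpos : 0 < Phi p U V := (mul_pos ha hU).trans_le (hΦA U V)
  have down : ∀ u v : H1 N, 2 * θ - η / a ≤ Pp (p + 1) u → Phi p u v ≤ c + η →
      Jf p μ ν lam u v ≤ 0 → ∃ t, 0 < t ∧ t ≤ 1 ∧ Jf p μ ν lam (u.smul t) (v.smul t) = 0 ∧
        m ≤ t ^ (p + 1) * Phi p u v := fun u v k1 k2 k3 => by
    obtain ⟨t, t0, t1, t2, t3⟩ := H.project_one h0 h1 (u := u) (v := v)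
      (by linarith [Pp_nonneg (crit N) v]) k3
    exact ⟨t, t0, t1, t3, (key u v k1 k2 t t0 t2 t3).trans (H.Phi_smul_le t0 t1 u v)⟩
  have hJle : Jf p μ ν lam U V ≤ 0 := by
    by_contra hcon
    rw [not_le] at hcon
    obtain ⟨c₁, hc₁, hco⟩ := coercive (N := N) H.hμ H.hν h1
    have ev := sJ.eventually_lt_const (by linarith : -Jf p μ ν lam U V < 0)
    have f1 : c ≤ m - Phi p U V := by
      refine ge_of_tendsto hrem (ev.mono fun n hn => hm.trans (H.level_le' h0 h1 ?_ hn.le))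
      have e3 := hco lam h0 le_rfl (r n) (s n)
      have e4 := Dd_nonneg (r n)
      have e5 := Dd_nonneg (s n)
      have e6 := mul_nonneg hc₁.le (add_nonneg (Ll_nonneg (r n)) (Ll_nonneg (s n)))
      unfold Jf at hn
      linarith
    have f2 : Pp (p + 1) U < η / a := by
      rw [lt_div_iff₀ ha]
      linarith [hΦA U V]
    have f3 : m ≤ m - Phi p U V := by
      refine ge_of_tendsto hrem ?_
      filter_upwards [ev, sA.eventually_lt_const f2,
        hrem.eventually_lt_const (by linarith : m - Phi p U V < c + η)] with n k1 k2 k3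
      obtain ⟨t, t0, t1, -, t3⟩ := down (r n) (s n) (by linarith [hA2 (φ n)]) k3.le k1.le
      exact t3.trans (mul_le_of_le_one_left (H.Phi_nonneg _ _)
        (Real.rpow_le_one t0.le t1 (by linarith)))
    linarith
  have g1 : c ≤ Phi p U V := hm.trans (H.level_le' h0 h1 hnz hJle)
  have g2 : 0 ≤ m - Phi p U V := ge_of_tendsto' hrem fun n => H.Phi_nonneg _ _
  have g3 : 2 * θ - η / a ≤ Pp (p + 1) U := by
    refine ge_of_tendsto sA ?_
    filter_upwards [hrem.eventually_lt_const (by linarith : m - Phi p U V < η)] with n k1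
    have k2 : Pp (p + 1) (r n) ≤ η / a := by
      rw [le_div_iff₀ ha]
      linarith [hΦA (r n) (s n)]
    linarith [hA2 (φ n)]
  obtain ⟨t, t0, t1, t2, t3⟩ := down U V g3 (by linarith) hJle
  have ht : t = 1 := by
    by_contra hne
    have := Real.rpow_lt_one t0.le (lt_of_le_of_ne t1 hne) (by linarith : 0 < p + 1)
    nlinarith
  subst ht
  rw [Jf_smul one_pos] at t2
  simp only [one_pow, Real.one_rpow, one_mul] at t2 t3
  have hJ0 : Jf p μ ν lam U V = 0 := t2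
  have g4 := big U V hJ0 (by linarith) (by linarith)
  refine ⟨U, V, (H.mem_nehari U V).2 ⟨hnz, hJ0⟩, H.critical_loc hnz hJ0
    (α := 2 * θ - η / a) (β := c + η) (by linarith [div_pos hη ha]) (by linarith)
    fun u v k1 k2 σ k3 k4 k5 => le_trans (by linarith) (key u v k1 k2 σ k3 k4 k5), ?_⟩
  rw [energy_eq, hJ0]
  linarith

theorem Hyp.below (H : Hyp N p μ ν) (hμ : mu0 N p < μ) {η₀ : ℝ} (hη₀ : 0 < η₀) :
    ∃ l, 0 < l ∧ l < sInf {lam | 0 < lam ∧ lam < √(μ * ν) ∧ HasGroundState N p μ ν lam} ∧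
      ∀ lam, l < lam →
        lam < sInf {lam | 0 < lam ∧ lam < √(μ * ν) ∧ HasGroundState N p μ ν lam} →
        ∃ u v : H1 N, (u, v) ∈ nehari N p μ ν lam ∧
          (∀ φ ψ : H1 N, energyDeriv p μ ν lam u v φ ψ = 0) ∧
          level N p μ ν lam < energy p μ ν lam u v ∧
          energy p μ ν lam u v < level N p μ ν lam + η₀ := by
  have hL0 := (Real.sqrt_nonneg _).trans_lt (H.strict hμ)
  obtain ⟨⟨l₁, hl₁⟩, u, v, hM, -, hE⟩ := H.threshold
  have hbdd : BddBelow {lam | 0 < lam ∧ lam < √(μ * ν) ∧ HasGroundState N p μ ν lam} :=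
    ⟨0, fun _ h => h.1.le⟩
  have hL1 := (csInf_le hbdd hl₁).trans_lt hl₁.2.1
  have hno : ∀ lam, 0 < lam →
      lam < sInf {lam | 0 < lam ∧ lam < √(μ * ν) ∧ HasGroundState N p μ ν lam} →
      ¬ HasGroundState N p μ ν lam := fun lam k0 k1 k2 =>
    absurd (csInf_le hbdd ⟨k0, k1.trans hL1, k2⟩) (not_le.2 k1)
  set L := sInf {lam | 0 < lam ∧ lam < √(μ * ν) ∧ HasGroundState N p μ ν lam} with hL
  have ha := H.a_pos
  have hb := H.b_pos
  have hq := H.q2
  have hs := H.s2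
  have hc := cinf_pos H.hN
  obtain ⟨hnz, hJ⟩ := (H.mem_nehari u v).1 hM
  have hΦ : Phi p u v ≤ sInf (critSet N) := by
    rw [energy_eq, hJ] at hE
    linarith [H.level_le_cinf hL0.le hL1]
  obtain ⟨δ₁, hδ₁, hbar⟩ := H.barrier hL1
  obtain ⟨δ₂, hδ₂, hnv⟩ := H.nonvanishing hL1
  have hA := hnv L hL0.le le_rfl u v hnz hJ hΦ
  set c := sInf (critSet N) with hcdef
  set a := 1 / 2 - 1 / (p + 1) with hadef
  set θ := min δ₁ δ₂ / 2 with hθdef
  have hθ : 0 < θ := half_pos (lt_min hδ₁ hδ₂)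
  have hθ1 : 2 * θ ≤ δ₁ := by rw [hθdef]; linarith [min_le_left δ₁ δ₂]
  have hθ2 : 2 * θ ≤ δ₂ := by rw [hθdef]; linarith [min_le_right δ₁ δ₂]
  set η := min η₀ (c * θ / (c / a + θ)) with hηdef
  have hη : 0 < η := lt_min hη₀ (by positivity)
  have hη1 : η ≤ η₀ := min_le_left _ _
  have hcη : η * (c / a + θ) ≤ c * θ := (le_div_iff₀ (by positivity)).1 (min_le_right _ _)
  obtain ⟨b, hb1, hb2⟩ : ∃ b : ℝ, b ^ crit N * c < c + η ∧ 1 < b := by
    have lim : Tendsto (fun t : ℝ => t ^ crit N * c) (𝓝[>] 1) (𝓝 (1 ^ crit N * c)) :=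
      (((Real.continuous_rpow_const (by linarith)).tendsto 1).mul_const _).mono_left
        nhdsWithin_le_nhds
    rw [Real.one_rpow, one_mul] at lim
    exact ((lim.eventually_lt_const (by linarith)).and self_mem_nhdsWithin).exists
  have hneg : Qb μ ν L u v u v - b ^ (p + 1 - 2) * Pp (p + 1) u -
      b ^ (crit N - 2) * Pp (crit N) v < 0 := by
    have e1 : 1 < b ^ (p + 1 - 2) := Real.one_lt_rpow hb2 (by linarith)
    have e2 : 1 < b ^ (crit N - 2) := Real.one_lt_rpow hb2 (by linarith)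
    unfold Jf at hJ
    nlinarith [mul_pos (sub_pos.2 e1) (hδ₂.trans_le hA),
      mul_nonneg (sub_pos.2 e2).le (Pp_nonneg (crit N) v)]
  have hcont : Continuous fun lam : ℝ => Qb μ ν lam u v u v - b ^ (p + 1 - 2) * Pp (p + 1) u -
      b ^ (crit N - 2) * Pp (crit N) v := by
    unfold Qb
    fun_prop
  obtain ⟨l, hl, hl'⟩ := exists_Ioc_subset_of_mem_nhds
    (((hcont.tendsto L).eventually_lt_const hneg).and (lt_mem_nhds hL0)) ⟨0, hL0⟩
  obtain ⟨l', k1, k2⟩ := exists_between hl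
  refine ⟨l', (hl' ⟨k1, k2.le⟩).2, k2, fun lam k3 k4 => ?_⟩
  obtain ⟨k5, k6⟩ := hl' ⟨k1.trans k3, k4.le⟩
  have k7 := k4.trans hL1
  have hm : c ≤ level N p μ ν lam :=
    not_lt.1 fun h => hno lam k6 k4 (H.hasGroundState_of_lt k6.le k7 h)
  obtain ⟨σ, s0, s1, s2, s3⟩ := H.project (lam := lam) (u := u) (v := v) le_rfl
    (by linarith : 0 ≤ b) (by
      rw [Real.zero_rpow (by linarith), Real.zero_rpow (by linarith)]
      simpa using H.Qb_pos k6.le k7 hnz) k5.le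
  have s4 : Phi p (u.smul σ) (v.smul σ) ≤ b ^ crit N * Phi p u v := by
    rw [Phi_smul s0]
    unfold Phi
    have e1 : σ ^ crit N ≤ b ^ crit N := Real.rpow_le_rpow s0.le s1 (by linarith)
    have e2 : σ ^ (p + 1) ≤ b ^ crit N := (Real.rpow_le_rpow s0.le s1 (by linarith)).trans
      (Real.rpow_le_rpow_of_exponent_le hb2.le H.qs.le)
    nlinarith [mul_le_mul_of_nonneg_right e1 (mul_nonneg hb.le (Pp_nonneg (crit N) v)),
      mul_le_mul_of_nonneg_right e2 (mul_nonneg ha.le (Pp_nonneg (p + 1) u))]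
  obtain ⟨U, V, hM', hcr, hE'⟩ := H.exists_local k6.le k7 hc hθ hη hm hcη
    (fun u v j1 j2 j3 => hbar lam k6.le k4.le u v j1 j2 (j3.trans_le hθ1))
    ⟨_, _, s3, H.loc_le hc hθ hη hm hcη (by linarith [div_pos hη ha]) (by linarith) s0 s2 s3, rfl⟩
    (s4.trans_lt ((mul_le_mul_of_nonneg_left hΦ (by positivity)).trans_lt hb1))
  refine ⟨U, V, hM', hcr, lt_of_le_of_ne ?_ fun e => hno lam k6 k4 ⟨U, V, hM', hcr, e.symm⟩,
    by linarith⟩
  obtain ⟨j1, j2⟩ := (H.mem_nehari U V).1 hM'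
  rw [energy_eq, j2]
  linarith [H.level_le j1 j2]

end Pool.Agent.P.MP_593b7e_an
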