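import Pool.Agent.P.MP_593b7e_an.Defs

set_option autoImplicit false

open MeasureTheory

namespace Pool.Agent.P.MP_593b7e_an

/-- The sharp Sobolev constant `S`. -/
noncomputable def sobS (N : ℕ) : ℝ :=
  sInf {r | ∃ u : H1 N, ¬ u.fn =ᵐ[volume] 0 ∧
    r = (∫ x, ‖u.grad x‖ ^ 2) / (∫ x, |u.fn x| ^ crit N) ^ (2 / crit N)}

/-- The sharp constant `C_{p+1}` of the embedding of `H¹` into `L^{p+1}`. -/
noncomputable def sobC (N : ℕ) (p : ℝ) : ℝ :=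
  sInf {r | ∃ u : H1 N, ¬ u.fn =ᵐ[volume] 0 ∧
    r = (∫ x, (‖u.grad x‖ ^ 2 + u.fn x ^ 2)) / (∫ x, |u.fn x| ^ (p + 1)) ^ (2 / (p + 1))}

/-- The number `μ₀`. -/
noncomputable def mu0 (N : ℕ) (p : ℝ) : ℝ :=
  (2 * (p + 1) / (N * (p - 1)) * sobS N ^ ((N : ℝ) / 2) * sobC N p ^ (-((p + 1) / (p - 1)))) ^
    (1 / ((p + 1) / (p - 1) - N / 2))

end Pool.Agent.P.MP_593b7e_an
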