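import Pool.Agent.P.MP_593b7e_an.Threshold
import Pool.Agent.P.MP_593b7e_an.St.Defs

set_option autoImplicit false

open MeasureTheory Filter Topology Set

namespace Pool.Agent.P.MP_593b7e_an

variable {N : ℕ} {p μ ν lam : ℝ}

lemma st_low {c x e : ℝ} (hc : 0 < c) (hx : 0 < x) (he : e < 1) (h : c * x ^ e ≤ x) :
    c ^ (1 - e)⁻¹ ≤ x := by
  rw [Real.rpow_inv_le_iff_of_pos hc.le hx.le (by linarith), Real.rpow_sub hx, Real.rpow_one,
    le_div_iff₀ (by positivity)]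
  exact h

lemma st_low' {c x e : ℝ} (hc : 0 < c) (hx : 0 < x) (he : e < 1) (h : c * x ^ e < x) :
    c ^ (1 - e)⁻¹ < x := by
  rw [Real.rpow_inv_lt_iff_of_pos hc.le hx.le (by linarith), Real.rpow_sub hx, Real.rpow_one,
    lt_div_iff₀ (by positivity)]
  exact h

lemma st_pos (hN : 3 ≤ N) {r : ℝ} (h1 : 2 ≤ r) (h2 : r ≤ crit N) {u : H1 N} :
    ¬ u.fn =ᵐ[volume] 0 ↔ 0 < Pp r u := by
  rw [← Pp_eq_zero_iff hN h1 h2]
  exact ⟨fun h => lt_of_le_of_ne (Pp_nonneg _ _) (Ne.symm h), fun h => h.ne'⟩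

/-- A lower bound for a quotient. -/
lemma st_quot {K n P r : ℝ} (hK : 0 < K) (hn : 0 < n) (hP : 0 < P) (hr : 0 < r)
    (h : P ≤ K * n ^ (r / 2)) : (K ^ (2 / r))⁻¹ ≤ n / P ^ (2 / r) := by
  have h1 := Real.rpow_le_rpow hP.le h (by positivity : 0 ≤ 2 / r)
  rw [Real.mul_rpow hK.le (by positivity), ← Real.rpow_mul hn.le,
    show r / 2 * (2 / r) = 1 by field_simp, Real.rpow_one] at h1
  rw [le_div_iff₀ (by positivity), inv_mul_le_iff₀ (by positivity)]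
  exact h1

lemma sobS_eq (hN : 3 ≤ N) : sobS N = sInf {r | ∃ u : H1 N, 0 < Pp (crit N) u ∧
    r = Dd u u / Pp (crit N) u ^ (2 / crit N)} := by
  unfold sobS
  simp only [st_pos hN (crit_gt_two hN).le le_rfl, Dd_self]
  rfl

lemma Hyp.sobC_eq (H : Hyp N p μ ν) : sobC N p = sInf {r | ∃ u : H1 N, 0 < Pp (p + 1) u ∧
    r = (Dd u u + Ll u u) / Pp (p + 1) u ^ (2 / (p + 1))} := by
  have e : ∀ u : H1 N, ∫ x, (‖u.grad x‖ ^ 2 + u.fn x ^ 2) = Dd u u + Ll u u := by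
    intro u
    unfold Dd Ll
    rw [← integral_add (int_D u u) (int_L u u)]
    simp_rw [real_inner_self_eq_norm_sq, sq]
  unfold sobC
  simp only [st_pos H.hN H.q2.le H.qs.le, e]
  rfl

lemma sobS_pos (hN : 3 ≤ N) : 0 < sobS N := by
  have hs := crit_gt_two hN
  obtain ⟨K, hK, h⟩ := sobolev_Pp hN
  obtain ⟨v, hv⟩ := exists_Pp_pos hN
  rw [sobS_eq hN]
  refine lt_of_lt_of_le (by positivity : 0 < (K ^ (2 / crit N))⁻¹)
    (le_csInf ⟨_, v, hv _ hs.le le_rfl, rfl⟩ ?_)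
  rintro _ ⟨u, hu, rfl⟩
  exact st_quot hK (Dd_pos hN hu) hu (by linarith) (h u).2

lemma sobS_le (hN : 3 ≤ N) {v : H1 N} (hv : 0 < Pp (crit N) v) :
    sobS N * Pp (crit N) v ^ (2 / crit N) ≤ Dd v v := by
  rw [← le_div_iff₀ (by positivity), sobS_eq hN]
  refine csInf_le ⟨0, ?_⟩ ⟨v, hv, rfl⟩
  rintro _ ⟨u, hu, rfl⟩
  exact div_nonneg (Dd_nonneg u) (by positivity)

lemma Hyp.Ll_pos (H : Hyp N p μ ν) {r : ℝ} (h1 : 2 ≤ r) (h2 : r ≤ crit N) {u : H1 N}
    (hu : 0 < Pp r u) : 0 < Ll u u :=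
  lt_of_le_of_ne (Ll_nonneg u) fun h => (st_pos H.hN h1 h2).2 hu ((Ll_eq_zero_iff u).1 h.symm)

lemma Hyp.sobC_pos (H : Hyp N p μ ν) : 0 < sobC N p := by
  have hq := H.q2
  obtain ⟨K, hK, h⟩ := H.Pp_le
  obtain ⟨v, hv⟩ := exists_Pp_pos H.hN
  rw [H.sobC_eq]
  refine lt_of_lt_of_le (by positivity : 0 < (K ^ (2 / (p + 1)))⁻¹)
    (le_csInf ⟨_, v, hv _ hq.le H.qs.le, rfl⟩ ?_)
  rintro _ ⟨u, hu, rfl⟩
  have hn : 0 < Dd u u + Ll u u := by linarith [Dd_nonneg u, H.Ll_pos hq.le H.qs.le hu]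
  exact st_quot hK hn hu (by linarith) (h u hn)

lemma Hyp.sobC_le (H : Hyp N p μ ν) {v : H1 N} (hv : 0 < Pp (p + 1) v) :
    sobC N p * Pp (p + 1) v ^ (2 / (p + 1)) ≤ Dd v v + Ll v v := by
  rw [← le_div_iff₀ (by positivity), H.sobC_eq]
  refine csInf_le ⟨0, ?_⟩ ⟨v, hv, rfl⟩
  rintro _ ⟨u, hu, rfl⟩
  exact div_nonneg (add_nonneg (Dd_nonneg u) (Ll_nonneg u)) (by positivity)

lemma st_exp (hN : 3 ≤ N) : 1 - 2 / crit N = 2 / N := by
  have h := half_sub_inv_crit hN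
  calc 1 - 2 / crit N = 2 * (1 / 2 - 1 / crit N) := by ring
    _ = 2 / N := by rw [h]; ring

lemma cinf_le (hN : 3 ≤ N) : sInf (critSet N) ≤ 1 / N * sobS N ^ ((N : ℝ) / 2) := by
  have hs := crit_gt_two hN
  have hN3 : (3 : ℝ) ≤ N := by exact_mod_cast hN
  have hc := cinf_pos hN
  obtain ⟨b, -, hb⟩ := critSet_bdd hN
  have key : (N * sInf (critSet N)) ^ ((N : ℝ) / 2)⁻¹ ≤ sobS N := by
    obtain ⟨v, hv⟩ := exists_Pp_pos hN
    rw [sobS_eq hN]
    refine le_csInf ⟨_, v, hv _ hs.le le_rfl, rfl⟩ ?_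
    rintro _ ⟨u, hB, rfl⟩
    have hD := Dd_pos hN hB
    set t := (Dd u u / Pp (crit N) u) ^ (crit N - 2)⁻¹ with ht
    have ht0 : 0 < t := by positivity
    have e1 : t ^ (crit N - 2) = Dd u u / Pp (crit N) u :=
      Real.rpow_inv_rpow (by positivity) (by linarith)
    have e2 : t ^ crit N * Pp (crit N) u = t ^ 2 * Dd u u := by
      rw [rpow_eq_sq_mul ht0, e1]
      field_simp
    have e3 : sInf (critSet N) ≤ 1 / N * (t ^ 2 * Dd u u) := by
      refine csInf_le ⟨b, hb⟩ ⟨u.smul t, ?_, ?_, ?_⟩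
      · rw [Pp_smul, abs_of_pos ht0]
        positivity
      · rw [Pp_smul, abs_of_pos ht0, e2, Dd_smul_left, Dd_smul_right]
        exact le_of_eq (by ring)
      · rw [Pp_smul, abs_of_pos ht0, e2, half_sub_inv_crit hN]
    have e4 : (t ^ 2 * Dd u u) ^ (2 / crit N) = t ^ 2 * Pp (crit N) u ^ (2 / crit N) := by
      rw [← e2, Real.mul_rpow (by positivity) hB.le, ← Real.rpow_mul ht0.le,
        show crit N * (2 / crit N) = 2 by field_simp, Real.rpow_two]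
    have e5 : (t ^ 2 * Dd u u) ^ ((N : ℝ) / 2)⁻¹ = Dd u u / Pp (crit N) u ^ (2 / crit N) := by
      rw [inv_div, ← st_exp hN, Real.rpow_sub (by positivity), Real.rpow_one, e4]
      field_simp
    rw [← e5]
    refine Real.rpow_le_rpow (by positivity) ?_ (by positivity)
    rw [one_div, le_inv_mul_iff₀ (by linarith)] at e3
    exact e3
  rw [Real.rpow_inv_le_iff_of_pos (by positivity) (sobS_pos hN).le (by positivity)] at key
  rw [one_div, le_inv_mul_iff₀ (by linarith)]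
  exact key

lemma Hyp.scale (H : Hyp N p μ ν) {m : ℝ} (hm : 0 < m) {u : H1 N} (hu : 0 < Pp (p + 1) u) :
    sobC N p * m ^ (1 - N / 2 * (1 - 2 / (p + 1))) * Pp (p + 1) u ^ (2 / (p + 1)) ≤
      Dd u u + m * Ll u u := by
  set R := m ^ (-(1 / 2) : ℝ) with hR
  have hR0 : 0 < R := by positivity
  have e1 : R ^ 2 = m⁻¹ := by
    rw [hR, ← Real.rpow_two, ← Real.rpow_mul hm.le, ← Real.rpow_neg_one]
    norm_num
  have e2 : (R ^ N)⁻¹ = m ^ ((N : ℝ) / 2) := by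
    rw [hR, ← Real.rpow_natCast, ← Real.rpow_mul hm.le, ← Real.rpow_neg hm.le]
    congr 1
    ring
  have h := H.sobC_le (v := u.dil R hR0) (by rw [Pp_dil]; positivity)
  rw [Pp_dil, Dd_dil, Ll_dil, e1, e2, Real.mul_rpow (by positivity) hu.le,
    ← Real.rpow_mul hm.le] at h
  have e3 : m ^ (1 - (N : ℝ) / 2 * (1 - 2 / (p + 1))) =
      m * m ^ ((N : ℝ) / 2 * (2 / (p + 1))) / m ^ ((N : ℝ) / 2) := by
    rw [← Real.rpow_one_add' hm.le, ← Real.rpow_sub hm]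
    · congr 1
      ring
    · have := H.q2
      positivity
  have h2 := mul_le_mul_of_nonneg_left h (by positivity : 0 ≤ m / m ^ ((N : ℝ) / 2))
  rw [e3]
  refine le_trans (le_of_eq ?_) (h2.trans (le_of_eq ?_))
  · ring
  · field_simp

lemma Hyp.exp_pos (H : Hyp N p μ ν) : 0 < (p + 1) / (p - 1) - N / 2 := by
  have hN3 : (3 : ℝ) ≤ N := by exact_mod_cast H.hN
  have h1 := H.qs
  have h2 := H.hp
  unfold crit at h1
  rw [lt_div_iff₀ (by linarith)] at h1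
  rw [sub_pos, div_lt_div_iff₀ two_pos (by linarith)]
  linarith

lemma Hyp.mu0_pos (H : Hyp N p μ ν) : 0 < mu0 N p := by
  have hN3 : (3 : ℝ) ≤ N := by exact_mod_cast H.hN
  have h1 := sobS_pos H.hN
  have h2 := H.sobC_pos
  have h3 : 0 < p - 1 := by linarith [H.hp]
  have h4 := H.q2
  unfold mu0
  positivity

lemma Hyp.mu0_eq (H : Hyp N p μ ν) : (1 / 2 - 1 / (p + 1)) *
    (sobC N p * mu0 N p ^ (1 - N / 2 * (1 - 2 / (p + 1)))) ^ (1 - 2 / (p + 1))⁻¹ =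
      1 / N * sobS N ^ ((N : ℝ) / 2) := by
  have hN3 : (3 : ℝ) ≤ N := by exact_mod_cast H.hN
  have h1 := sobS_pos H.hN
  have h2 := H.sobC_pos
  have h3 : 0 < p - 1 := by linarith [H.hp]
  have h4 := H.q2
  have h5 := H.mu0_pos
  have h6 := H.exp_pos
  have e1 : (1 - 2 / (p + 1))⁻¹ = (p + 1) / (p - 1) := by
    rw [show 1 - 2 / (p + 1) = (p - 1) / (p + 1) by field_simp; ring, inv_div]
  have e2 : (1 - (N : ℝ) / 2 * (1 - 2 / (p + 1))) * ((p + 1) / (p - 1)) =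
      (p + 1) / (p - 1) - N / 2 := by
    field_simp
    ring
  rw [e1, Real.mul_rpow h2.le (by positivity), ← Real.rpow_mul h5.le, e2, mu0, one_div (_ - _),
    Real.rpow_inv_rpow (by positivity) h6.ne', Real.rpow_neg h2.le]
  field_simp
  ring

lemma st_Ll_zero {u v : H1 N} (hv : v.fn =ᵐ[volume] 0) : Ll u v = 0 :=
  integral_eq_zero_of_ae (hv.mono fun x hx => by simp [hx])

/-- Below the lower bound for the threshold every point of the Nehari set lies strictly above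
the level at infinity. -/
lemma Hyp.above (H : Hyp N p μ ν) (hμ : mu0 N p < μ) (h0 : 0 ≤ lam)
    (h1 : lam ≤ √((μ - mu0 N p) * ν)) {u v : H1 N} (hnz : 0 < Pp (p + 1) u + Pp (crit N) v)
    (hJ : Jf p μ ν lam u v = 0) : 1 / N * sobS N ^ ((N : ℝ) / 2) < Phi p u v := by
  have hN3 : (3 : ℝ) ≤ N := by exact_mod_cast H.hN
  have hq := H.q2
  have hs := H.s2
  have ha := H.a_pos
  have hb := H.b_pos
  have hν := H.hν
  have hm := H.mu0_pos
  have hC := H.sobC_pos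
  have hS := sobS_pos H.hN
  have eq1 : 2 / (p + 1) < 1 := by rw [div_lt_one (by linarith)]; exact hq
  have es1 : 2 / crit N < 1 := by rw [div_lt_one (by linarith)]; exact hs
  have eS : sobS N ^ (1 - 2 / crit N)⁻¹ = sobS N ^ ((N : ℝ) / 2) := by rw [st_exp H.hN, inv_div]
  unfold Jf Qb at hJ
  rw [Ll_comm v u] at hJ
  unfold Phi
  rcases (Pp_nonneg (p + 1) u).eq_or_lt with hA | hA
  · have hu := (Pp_eq_zero_iff H.hN hq.le H.qs.le u).1 hA.symm
    have hB : 0 < Pp (crit N) v := by linarith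
    have e0 : Ll u v = 0 := by rw [Ll_comm, st_Ll_zero hu]
    have e1 := st_low' hS hB es1 ((sobS_le H.hN hB).trans_lt (by
      have := mul_pos hν (H.Ll_pos hs.le le_rfl hB)
      have := mul_nonneg H.hμ.le (Ll_nonneg u)
      rw [e0] at hJ
      linarith [Dd_nonneg u]))
    rw [eS] at e1
    rw [← hA, mul_zero, zero_add, half_sub_inv_crit H.hN]
    exact mul_lt_mul_of_pos_left e1 (by positivity)
  rcases (Pp_nonneg (crit N) v).eq_or_lt with hB | hB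
  · have hv := (Pp_eq_zero_iff H.hN hs.le le_rfl v).1 hB.symm
    have e1 := st_low' (by positivity) hA eq1 ((H.scale hm hA).trans_lt (by
      have := mul_pos (sub_pos.2 hμ) (H.Ll_pos hq.le H.qs.le hA)
      have := mul_nonneg hν.le (Ll_nonneg v)
      rw [st_Ll_zero (u := u) hv] at hJ
      linarith [Dd_nonneg v]))
    rw [← hB, mul_zero, add_zero, ← H.mu0_eq]
    exact mul_lt_mul_of_pos_left e1 ha
  have hQ : lam * (Ll u v + Ll u v) ≤ (μ - mu0 N p) * Ll u u + ν * Ll v v := by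
    have e1 := Ll_sq_le u v √(μ - mu0 N p) √ν
    rw [Real.sq_sqrt (by linarith), Real.sq_sqrt hν.le, mul_assoc 2,
      ← Real.sqrt_mul (by linarith)] at e1
    rcases le_total 0 (Ll u v) with h | h
    · nlinarith [mul_le_mul_of_nonneg_right h1 h]
    · have := mul_nonneg (sub_pos.2 hμ).le (Ll_nonneg u)
      have := mul_nonneg hν.le (Ll_nonneg v)
      nlinarith [mul_nonneg h0 (neg_nonneg.2 h)]
  rcases le_total (Dd v v) (Pp (crit N) v) with h | h
  · have e1 := st_low hS hB es1 ((sobS_le H.hN hB).trans h)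
    rw [eS] at e1
    have e2 := mul_le_mul_of_nonneg_left e1 hb.le
    rw [← half_sub_inv_crit H.hN]
    linarith [mul_pos ha hA]
  · have e1 := st_low (by positivity) hA eq1 ((H.scale hm hA).trans (by linarith))
    have e2 := mul_le_mul_of_nonneg_left e1 ha.le
    rw [← H.mu0_eq]
    linarith [mul_pos hb hB]

theorem Hyp.strict (H : Hyp N p μ ν) (hμ : mu0 N p < μ) : √((μ - mu0 N p) * ν) <
    sInf {lam | 0 < lam ∧ lam < √(μ * ν) ∧ HasGroundState N p μ ν lam} := by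
  obtain ⟨hne, u, v, hM, -, hE⟩ := H.threshold
  have h0 : 0 ≤ sInf {lam | 0 < lam ∧ lam < √(μ * ν) ∧ HasGroundState N p μ ν lam} :=
    le_csInf hne fun _ h => h.1.le
  obtain ⟨l, hl⟩ := hne
  have h1 := (csInf_le ⟨0, fun _ h => h.1.le⟩ hl).trans_lt hl.2.1
  by_contra h
  obtain ⟨hnz, hJ⟩ := (H.mem_nehari u v).1 hM
  have e1 := H.above hμ h0 (not_lt.1 h) hnz hJ
  have e2 := (H.level_le_cinf h0 h1).trans (cinf_le H.hN)
  rw [energy_eq, hJ] at hE
  linarith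

end Pool.Agent.P.MP_593b7e_an
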