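import Pool.Agent.P.MP_593b7e_an.St.Main

set_option autoImplicit false

open MeasureTheory Filter Topology Set

namespace Pool.Agent.P.MP_593b7e_an

variable {N : ℕ} {p μ ν lam : ℝ}

/-- Splitting of a bounded sequence of the Nehari set that does not vanish. -/
lemma Hyp.split (H : Hyp N p μ ν) (h0 : 0 ≤ lam) (h1 : lam < √(μ * ν)) (u v : ℕ → H1 N)
    (hJ : ∀ n, Jf p μ ν lam (u n) (v n) = 0) {m : ℝ} (hΦ : ∀ n, Phi p (u n) (v n) ≤ m) {δ : ℝ}
    (hδ : 0 < δ) (hA : ∀ n, δ ≤ Pp (p + 1) (u n)) :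
    ∃ (φ : ℕ → ℕ) (U V : H1 N) (r s : ℕ → H1 N), Tendsto φ atTop atTop ∧ 0 < Pp (p + 1) U ∧
      Tendsto (fun n => Pp (p + 1) (u (φ n)) - Pp (p + 1) (r n)) atTop (𝓝 (Pp (p + 1) U)) ∧
      Tendsto (fun n => Phi p (u (φ n)) (v (φ n)) - Phi p (r n) (s n)) atTop (𝓝 (Phi p U V)) ∧
      Tendsto (fun n => Jf p μ ν lam (r n) (s n)) atTop (𝓝 (-Jf p μ ν lam U V)) := by
  have ha := H.a_pos
  have hb := H.b_pos
  obtain ⟨c, hc, hco⟩ := coercive (N := N) H.hμ H.hν h1
  have bA : ∀ n, Pp (p + 1) (u n) ≤ m / (1 / 2 - 1 / (p + 1)) := by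
    intro n
    rw [le_div_iff₀ ha]
    have e1 := hΦ n
    have e3 := mul_nonneg hb.le (Pp_nonneg (crit N) (v n))
    unfold Phi at e1
    linarith
  have bB : ∀ n, Pp (crit N) (v n) ≤ m / (1 / 2 - 1 / crit N) := by
    intro n
    rw [le_div_iff₀ hb]
    have e1 := hΦ n
    have e3 := mul_nonneg ha.le (Pp_nonneg (p + 1) (u n))
    unfold Phi at e1
    linarith
  set C3 := m / (1 / 2 - 1 / (p + 1)) + m / (1 / 2 - 1 / crit N) with hC3
  have bQ : ∀ n, Dd (u n) (u n) + Dd (v n) (v n) + c * (Ll (u n) (u n) + Ll (v n) (v n)) ≤ C3 := by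
    intro n
    refine (hco lam h0 le_rfl _ _).trans ?_
    have e1 := hJ n
    unfold Jf at e1
    linarith [bA n, bB n]
  set C := max C3 (C3 / c) with hC
  have bounds : ∀ n, Dd (u n) (u n) ≤ C ∧ Dd (v n) (v n) ≤ C ∧ Ll (u n) (u n) ≤ C ∧
      Ll (v n) (v n) ≤ C := by
    intro n
    have e1 := bQ n
    have e2 := Dd_nonneg (u n)
    have e3 := Dd_nonneg (v n)
    have e4 := mul_nonneg hc.le (Ll_nonneg (u n))
    have e5 := mul_nonneg hc.le (Ll_nonneg (v n))
    refine ⟨le_max_of_le_left (by linarith), le_max_of_le_left (by linarith),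
      le_max_of_le_right ?_, le_max_of_le_right ?_⟩ <;> rw [le_div_iff₀ hc] <;> linarith
  have hC0 : 0 ≤ C := (Dd_nonneg _).trans (bounds 0).1
  obtain ⟨K, hK, hsob⟩ := sobolev_H1 H.hN
  obtain ⟨ρ, κ, hκ, hl⟩ := lions (E := EuclideanSpace ℝ (Fin N)) (B := K * √C) H.q2 H.qs hC0
    (by positivity) hδ
  have hy : ∀ n, ∃ y, κ ≤ |mol ρ (u n).fn y| := by
    intro n
    apply hl _ _ (u n).fn_memLp (u n).grad_memLp (u n).isWeakGrad
    · rw [← Ll_self]; exact (bounds n).2.2.1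
    · rw [← Dd_self]; exact (bounds n).1
    · refine (hsob (u n)).trans (ENNReal.ofReal_le_ofReal ?_)
      gcongr
      exact (bounds n).1
    · exact hA n
  choose y hy using hy
  obtain ⟨φ1, hφ1, U, hU⟩ := exists_conv (fun n => (u n).tr (y n)) (C := C)
    (fun n => by rw [Dd_tr]; exact (bounds n).1) (fun n => by rw [Ll_tr]; exact (bounds n).2.2.1)
  obtain ⟨φ2, hφ2, V, hV⟩ := exists_conv (fun n => (v (φ1 n)).tr (y (φ1 n))) (C := C)
    (fun n => by rw [Dd_tr]; exact (bounds _).2.1)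
    (fun n => by rw [Ll_tr]; exact (bounds _).2.2.2)
  have hU' := hU.comp hφ2
  have hφ : Tendsto (fun n => φ1 (φ2 n)) atTop atTop := (hφ1.comp hφ2).tendsto_atTop
  set a : ℕ → H1 N := fun n => (u (φ1 (φ2 n))).tr (y (φ1 (φ2 n))) with hadef
  set b : ℕ → H1 N := fun n => (v (φ1 (φ2 n))).tr (y (φ1 (φ2 n))) with hbdef
  have hUpos : 0 < Pp (p + 1) U := by
    have t1 := (hU'.weak _ (memLp_bump_sub ρ 0)).abs
    simp_rw [← mol_eq_inner] at t1
    have t2 : κ ≤ |mol ρ U.fn 0| := by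
      refine ge_of_tendsto' t1 fun n => ?_
      rw [hadef]
      simp only [mol_tr]
      exact hy _
    refine lt_of_le_of_ne (Pp_nonneg _ _) fun h => ?_
    have h3 := (Pp_eq_zero_iff H.hN H.q2.le H.qs.le U).1 h.symm
    have h4 : mol ρ U.fn 0 = 0 := by
      rw [mol_eq_swap]
      apply integral_eq_zero_of_ae
      filter_upwards [h3] with x hx
      simp [hx]
    rw [h4, abs_zero] at t2
    linarith
  have sA := hU'.pp_split H.hN H.q2.le H.qs.le (fun n => by rw [Pp_tr]; exact bA _)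
  have sB := hV.pp_split H.hN H.s2.le le_rfl (fun n => by rw [Pp_tr]; exact bB _)
  have sQ := hU'.qb_split (μ := μ) (ν := ν) (lam := lam) hV
  refine ⟨fun n => φ1 (φ2 n), U, V, fun n => (a n).sub U, fun n => (b n).sub V, hφ, hUpos,
    ?_, ?_, ?_⟩
  · refine sA.congr fun n => ?_
    simp only [hadef, Pp_tr]
  · refine ((sA.const_mul (1 / 2 - 1 / (p + 1))).add (sB.const_mul (1 / 2 - 1 / crit N))).congr
      fun n => ?_
    simp only [Phi, hadef, hbdef, Pp_tr]
    ring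
  · refine ((sQ.sub sA).sub sB).neg.congr fun n => ?_
    have := hJ (φ1 (φ2 n))
    simp only [Jf, hadef, hbdef, Qb_tr, Pp_tr] at this ⊢
    linarith

/-- A local minimiser on the Nehari set is a critical point. -/
lemma Hyp.critical_loc (H : Hyp N p μ ν) {U V : H1 N} (hnz : 0 < Pp (p + 1) U + Pp (crit N) V)
    (hJ : Jf p μ ν lam U V = 0) {α β : ℝ} (hα : α < Pp (p + 1) U) (hβ : Phi p U V < β)
    (hloc : ∀ u v : H1 N, α ≤ Pp (p + 1) u → Phi p u v ≤ β → ∀ σ, 0 < σ →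
      0 < Pp (p + 1) (u.smul σ) + Pp (crit N) (v.smul σ) → Jf p μ ν lam (u.smul σ) (v.smul σ) = 0 →
      Phi p U V ≤ Phi p (u.smul σ) (v.smul σ)) (φ ψ : H1 N) :
    energyDeriv p μ ν lam U V φ ψ = 0 := by
  classical
  have hq := H.q2
  have hs := H.s2
  have key : ∀ φ ψ : H1 N, 0 ≤ energyDeriv p μ ν lam U V φ ψ := by
    intro φ ψ
    have hQt : ∀ t : ℝ, Qb μ ν lam (U.add (φ.smul t)) (V.add (ψ.smul t)) (U.add (φ.smul t))
        (V.add (ψ.smul t)) = Qb μ ν lam U V U V + 2 * Qb μ ν lam U V φ ψ * t +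
          Qb μ ν lam φ ψ φ ψ * t ^ 2 := by
      intro t
      simp only [Qb, Dd_add_left, Dd_add_right, Ll_add_left, Ll_add_right, Dd_smul_left,
        Dd_smul_right, Ll_smul_left, Ll_smul_right]
      rw [Dd_comm φ U, Dd_comm ψ V, Ll_comm φ U, Ll_comm ψ V, Ll_comm φ V, Ll_comm ψ U]
      ring
    have hP0 : ∀ (r : ℝ) (a b : H1 N), Pp r (a.add (b.smul 0)) = Pp r a := by
      intro r a b
      simp [Pp, H1.add, H1.smul]
    have dQ : HasDerivAt (fun t : ℝ => Qb μ ν lam (U.add (φ.smul t)) (V.add (ψ.smul t))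
        (U.add (φ.smul t)) (V.add (ψ.smul t))) (2 * Qb μ ν lam U V φ ψ) 0 := by
      simp_rw [hQt]
      have := (((hasDerivAt_id (0 : ℝ)).const_mul (2 * Qb μ ν lam U V φ ψ)).const_add
        (Qb μ ν lam U V U V)).fun_add ((hasDerivAt_pow 2 (0 : ℝ)).const_mul (Qb μ ν lam φ ψ φ ψ))
      simpa using this
    have dA : HasDerivAt (fun t : ℝ => Pp (p + 1) (U.add (φ.smul t)))
        ((p + 1) * Nn (p + 1) U φ) 0 :=
      hasDerivAt_integral_abs_rpow hq.le U.fn_memLp.1 φ.fn_memLp.1 (int_P H.hN hq.le H.qs.le U)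
        (int_P H.hN hq.le H.qs.le φ)
    have dB : HasDerivAt (fun t : ℝ => Pp (crit N) (V.add (ψ.smul t)))
        (crit N * Nn (crit N) V ψ) 0 :=
      hasDerivAt_integral_abs_rpow hs.le V.fn_memLp.1 ψ.fn_memLp.1 (int_P H.hN hs.le le_rfl V)
        (int_P H.hN hs.le le_rfl ψ)
    let G : ℝ → Prop := fun t => α ≤ Pp (p + 1) (U.add (φ.smul t)) ∧
      Phi p (U.add (φ.smul t)) (V.add (ψ.smul t)) ≤ β
    have hG : ∀ᶠ t in 𝓝 (0 : ℝ), G t := by
      have tA := dA.continuousAt.tendsto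
      have tB := dB.continuousAt.tendsto
      simp only [hP0] at tA tB
      exact (tA.eventually_const_le hα).and (((tA.const_mul (1 / 2 - 1 / (p + 1))).add
        (tB.const_mul (1 / 2 - 1 / crit N))).eventually_le_const hβ)
    let τ : ℝ → ℝ := fun t => if G t then t else 0
    have hτ0 : τ 0 = 0 := ite_self 0
    have hτG : ∀ t, G (τ t) := fun t => by
      by_cases h : G t
      · simpa only [τ, if_pos h] using h
      · simpa only [τ, if_neg h] using hG.self_of_nhds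
    have hτ : ∀ {f : ℝ → ℝ} {f' : ℝ}, HasDerivAt f f' 0 → HasDerivAt (fun t => f (τ t)) f' 0 :=
      fun hf => hf.congr_of_eventuallyEq (hG.mono fun t ht => by simp only [τ, if_pos ht])
    have := natural_constraint (m := Phi p U V) hq hs (hτ dQ) (hτ dA) (hτ dB) (Pp_nonneg _ _)
      (Pp_nonneg _ _) (by simpa only [hτ0, hP0] using hnz)
      (by
        simp only [hτ0, hQt, hP0]
        unfold Jf at hJ
        linarith)
      (by
        simp only [hτ0, hQt, hP0]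
        unfold Jf at hJ
        unfold Phi
        linear_combination (-1 / 2) * hJ)
      (by
        intro t a b ha hab l1 l2
        obtain ⟨σ, s1, s2, s3, s4⟩ := H.project ha.le hab l1 l2
        have hσ : 0 < σ := ha.trans s1
        refine ⟨σ, s1, s2, (hloc _ _ (hτG t).1 (hτG t).2 σ hσ s3 s4).trans (le_of_eq ?_)⟩
        unfold Jf at s4
        rw [Qb_smul, Pp_smul, Pp_smul, abs_of_pos hσ] at s4
        rw [Phi_smul hσ]
        linear_combination (-1 / 2) * s4)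
    rw [energyDeriv_eq]
    refine this.trans (le_of_eq ?_)
    field_simp
  have k1 := key φ ψ
  have k2 := key (φ.smul (-1)) (ψ.smul (-1))
  rw [energyDeriv_eq] at k1 k2 ⊢
  simp only [Qb, Dd_smul_right, Ll_smul_right, Nn_smul_right] at k1 k2 ⊢
  linarith

end Pool.Agent.P.MP_593b7e_an
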